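import Mathlib

/-!
# Convex equilateral polygons of all large sizes in rectangular lattices

For every `m ≡ 3 (mod 4)` the lattice generated by `(1, 0)` and `(0, √m)` contains a convex
equilateral `n`-gon for all large `n`.
-/

namespace Pool.Agent.Results.MP_349919_co.AllLargeN

open Finset

/-- The Euclidean plane. -/
abbrev Plane := EuclideanSpace ℝ (Fin 2)

/-- The lattice generated by `(1, 0)` and `(0, √m)`. -/
def Lam (m : ℕ) : Set Plane := {x | ∃ a b : ℤ, x 0 = a ∧ x 1 = b * Real.sqrt m}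

/-- The cross product (signed area) of two plane vectors. -/
def cross (u v : Plane) : ℝ := u 0 * v 1 - u 1 * v 0

/-- `p` lists the vertices of a convex equilateral `n`-gon counterclockwise: `n ≥ 3`, all sides
have the same positive length, and for every side all the other vertices lie strictly to the
left of the line through it. -/
structure IsConvexEquilateral (n : ℕ) (p : Fin n → Plane) : Prop where
  three_le : 3 ≤ n
  equilateral : ∃ ℓ : ℝ, 0 < ℓ ∧ ∀ i, dist (p i) (p (finRotate n i)) = ℓ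
  convex : ∀ i j, j ≠ i → j ≠ finRotate n i → 0 < cross (p (finRotate n i) - p i) (p j - p i)

/-! ### Elements of norm one in the imaginary quadratic field -/

section field

variable (m : ℕ)

/-- The ring `ℤ[√-m]` inside the complex numbers. -/
def ZZ : Set ℂ := {z | ∃ a b : ℤ, z = ⟨a, b * Real.sqrt m⟩}

/-- The field `ℚ(√-m)` inside the complex numbers. -/
def KK : Set ℂ := {z | ∃ x y : ℚ, z = ⟨x, y * Real.sqrt m⟩}

/-- Elements of absolute value one. -/
def UU : Set ℂ := {z | z ∈ KK m ∧ ‖z‖ = 1}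

lemma sqrt_sq' : Real.sqrt m * Real.sqrt m = m := Real.mul_self_sqrt (Nat.cast_nonneg m)

lemma ZZ_mul {z w : ℂ} (hz : z ∈ ZZ m) (hw : w ∈ ZZ m) : z * w ∈ ZZ m := by
  obtain ⟨a, b, rfl⟩ := hz
  obtain ⟨c, d, rfl⟩ := hw
  refine ⟨a * c - m * (b * d), a * d + b * c, ?_⟩
  apply Complex.ext
  · simp only [Complex.mul_re]
    push_cast
    have := sqrt_sq' m
    linear_combination (-(b:ℝ) * d) * this
  · simp only [Complex.mul_im]
    push_cast
    ring

lemma ZZ_add {z w : ℂ} (hz : z ∈ ZZ m) (hw : w ∈ ZZ m) : z + w ∈ ZZ m := by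
  obtain ⟨a, b, rfl⟩ := hz
  obtain ⟨c, d, rfl⟩ := hw
  refine ⟨a + c, b + d, ?_⟩
  apply Complex.ext
  · simp
  · simp only [Complex.add_im]
    push_cast
    ring

lemma ZZ_zero : (0 : ℂ) ∈ ZZ m := ⟨0, 0, by apply Complex.ext <;> simp⟩

lemma ZZ_one : (1 : ℂ) ∈ ZZ m := ⟨1, 0, by apply Complex.ext <;> simp⟩

lemma ZZ_sum {ι : Type*} (s : Finset ι) (f : ι → ℂ) (h : ∀ i ∈ s, f i ∈ ZZ m) :
    ∑ i ∈ s, f i ∈ ZZ m := by
  classical
  induction s using Finset.induction_on with
  | empty => simpa using ZZ_zero m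
  | insert i s hi ih =>
    rw [Finset.sum_insert hi]
    exact ZZ_add m (h i (mem_insert_self i s)) (ih (fun j hj => h j (mem_insert_of_mem hj)))

lemma ZZ_sub_KK {z : ℂ} (hz : z ∈ ZZ m) : z ∈ KK m := by
  obtain ⟨a, b, rfl⟩ := hz
  exact ⟨a, b, by push_cast; rfl⟩

lemma KK_mul {z w : ℂ} (hz : z ∈ KK m) (hw : w ∈ KK m) : z * w ∈ KK m := by
  obtain ⟨a, b, rfl⟩ := hz
  obtain ⟨c, d, rfl⟩ := hw
  refine ⟨a * c - m * (b * d), a * d + b * c, ?_⟩
  apply Complex.ext
  · simp only [Complex.mul_re]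
    push_cast
    have := sqrt_sq' m
    linear_combination (-(b:ℝ) * d) * this
  · simp only [Complex.mul_im]
    push_cast
    ring

lemma KK_neg {z : ℂ} (hz : z ∈ KK m) : -z ∈ KK m := by
  obtain ⟨a, b, rfl⟩ := hz
  refine ⟨-a, -b, ?_⟩
  apply Complex.ext
  · simp
  · simp

lemma KK_inv {z : ℂ} (hz : z ∈ KK m) : z⁻¹ ∈ KK m := by
  obtain ⟨a, b, rfl⟩ := hz
  refine ⟨a / (a ^ 2 + m * b ^ 2), -b / (a ^ 2 + m * b ^ 2), ?_⟩
  have h : Complex.normSq (⟨a, b * Real.sqrt m⟩ : ℂ) = (a : ℝ) ^ 2 + m * (b : ℝ) ^ 2 := by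
    rw [Complex.normSq_mk]
    have := sqrt_sq' m
    linear_combination ((b:ℝ) ^ 2) * this
  apply Complex.ext
  · rw [Complex.inv_re, h]
    push_cast
    rfl
  · rw [Complex.inv_im, h]
    push_cast
    ring

lemma UU_mul {z w : ℂ} (hz : z ∈ UU m) (hw : w ∈ UU m) : z * w ∈ UU m :=
  ⟨KK_mul m hz.1 hw.1, by rw [norm_mul, hz.2, hw.2, one_mul]⟩

lemma UU_neg {z : ℂ} (hz : z ∈ UU m) : -z ∈ UU m :=
  ⟨KK_neg m hz.1, by rw [norm_neg, hz.2]⟩

lemma UU_one : (1 : ℂ) ∈ UU m := ⟨ZZ_sub_KK m (ZZ_one m), by simp⟩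

lemma UU_ne_zero {z : ℂ} (hz : z ∈ UU m) : z ≠ 0 := by
  intro h
  have := hz.2
  rw [h] at this
  simp at this

/-- The elements `1 + t √-m`. -/
noncomputable def al (t : ℕ) : ℂ := ⟨1, t * Real.sqrt m⟩

lemma al_mem (t : ℕ) : al m t ∈ ZZ m := ⟨1, t, by simp [al]⟩

lemma conj_al_mem (t : ℕ) : (starRingEnd ℂ) (al m t) ∈ ZZ m :=
  ⟨1, -t, by apply Complex.ext <;> simp [al]⟩

lemma al_ne_zero (t : ℕ) : al m t ≠ 0 := by
  intro h
  have := congrArg Complex.re h
  simp [al] at this

lemma norm_al_le (t : ℕ) (ht : 1 ≤ t) : ‖al m t‖ ≤ (1 + m) * t := by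
  have h1 : ‖al m t‖ ≤ |(al m t).re| + |(al m t).im| := Complex.norm_le_abs_re_add_abs_im _
  have h2 : (al m t).re = 1 := rfl
  have h3 : (al m t).im = t * Real.sqrt m := rfl
  rw [h2, h3, abs_one, abs_of_nonneg (by positivity)] at h1
  have h4 : Real.sqrt m ≤ m := by
    rcases Nat.eq_zero_or_pos m with h | h
    · rw [h]; simp
    · rw [Real.sqrt_le_iff]
      have : (1:ℝ) ≤ m := by exact_mod_cast h
      constructor
      · positivity
      · nlinarith
  have h5 : (1:ℝ) ≤ t := by exact_mod_cast ht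
  have h6 : (t:ℝ) * Real.sqrt m ≤ t * m := mul_le_mul_of_nonneg_left h4 (by linarith)
  linarith

/-- The quotient of `1 + t √-m` by its conjugate. -/
noncomputable def gam (t : ℕ) : ℂ := al m t / (starRingEnd ℂ) (al m t)

lemma gam_mem (t : ℕ) : gam m t ∈ UU m := by
  constructor
  · unfold gam
    rw [div_eq_mul_inv]
    exact KK_mul m (ZZ_sub_KK m (al_mem m t)) (KK_inv m (ZZ_sub_KK m (conj_al_mem m t)))
  · unfold gam
    rw [norm_div, Complex.norm_conj, div_self (norm_ne_zero_iff.mpr (al_ne_zero m t))]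

lemma gam_inj (hm : 0 < m) : Function.Injective (gam m) := by
  intro s t h
  unfold gam at h
  have h1 : (starRingEnd ℂ) (al m s) ≠ 0 := by
    intro h0
    exact al_ne_zero m s ((map_eq_zero _).mp h0)
  have h2 : (starRingEnd ℂ) (al m t) ≠ 0 := by
    intro h0
    exact al_ne_zero m t ((map_eq_zero _).mp h0)
  rw [div_eq_div_iff h1 h2] at h
  have h3 := congrArg Complex.im h
  simp [al, Complex.mul_im] at h3
  have hs : 0 < Real.sqrt m := Real.sqrt_pos.mpr (by exact_mod_cast hm)
  have h4 : ((s:ℝ) - t) * Real.sqrt m = 0 := by linarith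
  have h5 : (s:ℝ) - t = 0 := (mul_eq_zero.mp h4).resolve_right hs.ne'
  have h6 : (s:ℝ) = t := by linarith
  exact_mod_cast h6

/-- A fresh parameter outside a finite forbidden set. -/
lemma exists_fresh (hm : 0 < m) (G : Finset ℂ) : ∃ t : ℕ, 1 ≤ t ∧ t ≤ G.card + 1 ∧ gam m t ∉ G := by
  classical
  by_contra hcon
  push Not at hcon
  have h1 : ((Finset.Icc 1 (G.card + 1)).image (gam m)) ⊆ G := by
    intro z hz
    obtain ⟨t, ht, rfl⟩ := Finset.mem_image.mp hz
    rw [Finset.mem_Icc] at ht
    exact hcon t ht.1 ht.2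
  have h2 := Finset.card_le_card h1
  rw [Finset.card_image_of_injective _ (gam_inj m hm)] at h2
  simp at h2

/-- Large sets of lattice elements of equal norm whose quotients avoid a finite set. -/
lemma exists_family (hm : 0 < m) (F : Finset ℂ) (h1 : (1:ℂ) ∈ F) (r : ℕ) :
    ∃ (E : Finset ℂ) (q : ℝ), E.card = 2 ^ r ∧ (∀ x ∈ E, x ∈ ZZ m) ∧ (∀ x ∈ E, ‖x‖ = q) ∧ 0 < q ∧
      q ≤ ((1 + m) * (2 * F.card * 4 ^ r + 1)) ^ r ∧ ∀ x ∈ E, ∀ y ∈ E, x ≠ y → x / y ∉ F := by
  classical
  induction r with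
  | zero =>
    refine ⟨{1}, 1, by simp, ?_, ?_, one_pos, by simp, ?_⟩
    · intro x hx
      rw [Finset.mem_singleton] at hx
      rw [hx]
      exact ZZ_one m
    · intro x hx
      rw [Finset.mem_singleton] at hx
      rw [hx]
      simp
    · intro x hx y hy hxy
      rw [Finset.mem_singleton] at hx hy
      exact absurd (hx.trans hy.symm) hxy
  | succ r ih =>
    obtain ⟨E, q, hcard, hZ, hn, hq, hqle, hF⟩ := ih
    -- forbidden set
    set G : Finset ℂ := ((F ×ˢ (E ×ˢ E)).image fun p => p.1 * (p.2.1 / p.2.2))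
      ∪ ((F ×ˢ (E ×ˢ E)).image fun p => (p.1 * (p.2.1 / p.2.2))⁻¹) with hG
    have hGcard : G.card ≤ 2 * F.card * 4 ^ r := by
      have h3 : (F ×ˢ (E ×ˢ E)).card = F.card * (2 ^ r * 2 ^ r) := by
        rw [Finset.card_product, Finset.card_product, hcard]
      have h4 : (2 : ℕ) ^ r * 2 ^ r = 4 ^ r := by
        rw [← mul_pow]
        norm_num
      calc G.card ≤ _ + _ := Finset.card_union_le _ _
        _ ≤ F.card * (2 ^ r * 2 ^ r) + F.card * (2 ^ r * 2 ^ r) :=
          add_le_add (Finset.card_image_le.trans h3.le) (Finset.card_image_le.trans h3.le)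
        _ = 2 * F.card * 4 ^ r := by rw [h4]; ring
    obtain ⟨t, ht1, ht2, htG⟩ := exists_fresh m hm G
    set α := al m t with hα
    set β := (starRingEnd ℂ) α with hβ
    have hα0 : α ≠ 0 := al_ne_zero m t
    have hβ0 : β ≠ 0 := by
      intro h0
      exact hα0 ((map_eq_zero _).mp h0)
    have hgam : gam m t = α / β := rfl
    have hE0 : ∀ x ∈ E, x ≠ 0 := by
      intro x hx h0
      have := hn x hx
      rw [h0] at this
      simp at this
      linarith
    -- key: mixed quotients are not in F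
    have key1 : ∀ x ∈ E, ∀ y ∈ E, (α * x) / (β * y) ∉ F := by
      intro x hx y hy hmem
      apply htG
      rw [hG, Finset.mem_union]
      left
      rw [Finset.mem_image]
      refine ⟨((α * x) / (β * y), (y, x)), ?_, ?_⟩
      · rw [Finset.mem_product, Finset.mem_product]
        exact ⟨hmem, hy, hx⟩
      · simp only
        rw [hgam]
        have := hE0 x hx
        have := hE0 y hy
        field_simp
    have key2 : ∀ x ∈ E, ∀ y ∈ E, (β * x) / (α * y) ∉ F := by
      intro x hx y hy hmem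
      apply htG
      rw [hG, Finset.mem_union]
      right
      rw [Finset.mem_image]
      refine ⟨((β * x) / (α * y), (y, x)), ?_, ?_⟩
      · rw [Finset.mem_product, Finset.mem_product]
        exact ⟨hmem, hy, hx⟩
      · simp only
        rw [hgam]
        have := hE0 x hx
        have := hE0 y hy
        field_simp
    have hdisj : Disjoint (E.image fun x => α * x) (E.image fun x => β * x) := by
      rw [Finset.disjoint_left]
      intro z hz1 hz2
      obtain ⟨x, hx, rfl⟩ := Finset.mem_image.mp hz1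
      obtain ⟨y, hy, hxy⟩ := Finset.mem_image.mp hz2
      apply key1 x hx y hy
      rw [hxy, div_self (mul_ne_zero hα0 (hE0 x hx))]
      exact h1
    refine ⟨(E.image fun x => α * x) ∪ (E.image fun x => β * x), ‖α‖ * q, ?_, ?_, ?_, ?_, ?_, ?_⟩
    · rw [Finset.card_union_of_disjoint hdisj,
        Finset.card_image_of_injective _ (mul_right_injective₀ hα0),
        Finset.card_image_of_injective _ (mul_right_injective₀ hβ0), hcard]
      ring
    · intro z hz
      rcases Finset.mem_union.mp hz with hz | hz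
      · obtain ⟨x, hx, rfl⟩ := Finset.mem_image.mp hz
        exact ZZ_mul m (al_mem m t) (hZ x hx)
      · obtain ⟨x, hx, rfl⟩ := Finset.mem_image.mp hz
        exact ZZ_mul m (conj_al_mem m t) (hZ x hx)
    · intro z hz
      rcases Finset.mem_union.mp hz with hz | hz
      · obtain ⟨x, hx, rfl⟩ := Finset.mem_image.mp hz
        rw [norm_mul, hn x hx]
      · obtain ⟨x, hx, rfl⟩ := Finset.mem_image.mp hz
        rw [norm_mul, hn x hx, hβ, Complex.norm_conj]
    · exact mul_pos (norm_pos_iff.mpr hα0) hq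
    · have hb1 : ‖α‖ ≤ (1 + m) * (2 * F.card * 4 ^ (r + 1) + 1) := by
        refine (norm_al_le m t ht1).trans ?_
        apply mul_le_mul_of_nonneg_left _ (by positivity)
        have h5 : t ≤ 2 * F.card * 4 ^ (r + 1) + 1 := by
          have h6 : 2 * F.card * 4 ^ r ≤ 2 * F.card * 4 ^ (r + 1) :=
            Nat.mul_le_mul_left _ (Nat.pow_le_pow_right (by norm_num) (by omega))
          omega
        exact_mod_cast h5
      have hb2 : ((1 + m) * (2 * F.card * 4 ^ r + 1) : ℝ) ≤ (1 + m) * (2 * F.card * 4 ^ (r + 1) + 1) := by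
        apply mul_le_mul_of_nonneg_left _ (by positivity)
        have h6 : 2 * F.card * 4 ^ r ≤ 2 * F.card * 4 ^ (r + 1) :=
          Nat.mul_le_mul_left _ (Nat.pow_le_pow_right (by norm_num) (by omega))
        have h7 : ((2 * F.card * 4 ^ r : ℕ) : ℝ) ≤ ((2 * F.card * 4 ^ (r + 1) : ℕ) : ℝ) := by
          exact_mod_cast h6
        push_cast at h7
        linarith
      calc ‖α‖ * q ≤ ((1 + m) * (2 * F.card * 4 ^ (r + 1) + 1))
            * ((1 + m) * (2 * F.card * 4 ^ r + 1)) ^ r :=
            mul_le_mul hb1 hqle hq.le (by positivity)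
        _ ≤ ((1 + m) * (2 * F.card * 4 ^ (r + 1) + 1))
            * ((1 + m) * (2 * F.card * 4 ^ (r + 1) + 1)) ^ r :=
            mul_le_mul_of_nonneg_left (pow_le_pow_left₀ (by positivity) hb2 r) (by positivity)
        _ = _ := by rw [pow_succ]; ring
    · intro z hz w hw hzw
      rcases Finset.mem_union.mp hz with hz | hz <;> rcases Finset.mem_union.mp hw with hw | hw
      · obtain ⟨x, hx, rfl⟩ := Finset.mem_image.mp hz
        obtain ⟨y, hy, rfl⟩ := Finset.mem_image.mp hw
        rw [mul_div_mul_left _ _ hα0]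
        exact hF x hx y hy (fun h => hzw (by rw [h]))
      · obtain ⟨x, hx, rfl⟩ := Finset.mem_image.mp hz
        obtain ⟨y, hy, rfl⟩ := Finset.mem_image.mp hw
        exact key1 x hx y hy
      · obtain ⟨x, hx, rfl⟩ := Finset.mem_image.mp hz
        obtain ⟨y, hy, rfl⟩ := Finset.mem_image.mp hw
        exact key2 x hx y hy
      · obtain ⟨x, hx, rfl⟩ := Finset.mem_image.mp hz
        obtain ⟨y, hy, rfl⟩ := Finset.mem_image.mp hw
        rw [mul_div_mul_left _ _ hβ0]
        exact hF x hx y hy (fun h => hzw (by rw [h]))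

/-- The growth inequality behind the pigeonhole argument. -/
lemma exists_r (c : ℕ) : ∃ r : ℕ,
    (2 * (2 ^ r * (c * (4 ^ r)) ^ r) + 1) ^ 2 < 2 ^ (2 ^ r) := by
  obtain ⟨L, hL⟩ : ∃ L : ℕ, c ≤ 2 ^ L := ⟨c, Nat.lt_two_pow_self.le⟩
  have h := tendsto_pow_const_div_const_pow_of_one_lt 2 (r := (2:ℝ)) (by norm_num)
  have h2 : ∀ᶠ r : ℕ in Filter.atTop, ((r : ℝ) ^ 2 / 2 ^ r) < 1 / (2 * L + 11) :=
    h.eventually (gt_mem_nhds (by positivity))
  obtain ⟨r, hr1, hr2⟩ := ((Filter.eventually_ge_atTop 1).and h2).exists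
  refine ⟨r, ?_⟩
  rw [div_lt_div_iff₀ (by positivity) (by positivity), one_mul] at hr2
  have hr3 : r ^ 2 * (2 * L + 11) < 2 ^ r := by exact_mod_cast hr2
  have e1 : 2 * (2 ^ r * (c * 4 ^ r) ^ r) + 1 ≤ 2 ^ (2 + r + (L + 2 * r) * r) := by
    have h3 : (c * 4 ^ r) ^ r ≤ (2 ^ (L + 2 * r)) ^ r := by
      apply Nat.pow_le_pow_left
      calc c * 4 ^ r ≤ 2 ^ L * 4 ^ r := Nat.mul_le_mul_right _ hL
        _ = 2 ^ (L + 2 * r) := by
          rw [pow_add, pow_mul]
          norm_num
    have h4 : 2 ^ r * (c * 4 ^ r) ^ r ≤ 2 ^ (r + (L + 2 * r) * r) := by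
      calc 2 ^ r * (c * 4 ^ r) ^ r ≤ 2 ^ r * (2 ^ (L + 2 * r)) ^ r := Nat.mul_le_mul_left _ h3
        _ = _ := by rw [← pow_mul, ← pow_add]
    have h5 : 1 ≤ 2 ^ (r + (L + 2 * r) * r) := Nat.one_le_two_pow
    calc 2 * (2 ^ r * (c * 4 ^ r) ^ r) + 1 ≤ 2 * 2 ^ (r + (L + 2 * r) * r)
          + 2 * 2 ^ (r + (L + 2 * r) * r) := by omega
      _ = 2 ^ (2 + r + (L + 2 * r) * r) := by
        rw [show 2 + r + (L + 2 * r) * r = 2 + (r + (L + 2 * r) * r) by ring, pow_add]
        ring
  calc (2 * (2 ^ r * (c * 4 ^ r) ^ r) + 1) ^ 2 ≤ (2 ^ (2 + r + (L + 2 * r) * r)) ^ 2 :=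
        Nat.pow_le_pow_left e1 2
    _ = 2 ^ ((2 + r + (L + 2 * r) * r) * 2) := by rw [← pow_mul]
    _ < 2 ^ (2 ^ r) := by
      apply Nat.pow_lt_pow_right (by norm_num)
      have q1 : 1 ≤ r * r := Nat.one_le_iff_ne_zero.mpr (by positivity)
      have q2 : r ≤ r * r := Nat.le_mul_of_pos_left r hr1
      have q3 : L * r ≤ L * (r * r) := Nat.mul_le_mul_left L q2
      have q4 : (2 + r + (L + 2 * r) * r) * 2 = 4 + 2 * r + 2 * (L * r) + 4 * (r * r) := by ring
      have q5 : r ^ 2 * (2 * L + 11) = 2 * (L * (r * r)) + 11 * (r * r) := by ring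
      omega

/-- Either an odd zero-sum set of elements of norm one exists, or `1` is the sum of an odd set of
elements of norm one avoiding any given finite set. -/
lemma dichotomy (hm : 0 < m) (F : Finset ℂ) :
    (∃ S : Finset ℂ, (∀ z ∈ S, z ∈ UU m) ∧ ∑ z ∈ S, z = 0 ∧ Odd S.card) ∨
    (∃ H : Finset ℂ, (∀ z ∈ H, z ∈ UU m) ∧ ∑ z ∈ H, z = 1 ∧ Odd H.card ∧ Disjoint H F) := by
  classical
  set F' : Finset ℂ := F ∪ F.image (fun z => -z) ∪ {1, -1} with hF'
  have hneg : ∀ z, z ∈ F' → -z ∈ F' := by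
    intro z hz
    rw [hF', Finset.mem_union, Finset.mem_union, Finset.mem_image, Finset.mem_insert,
      Finset.mem_singleton] at hz ⊢
    rcases hz with (hz | ⟨w, hw, rfl⟩) | (rfl | rfl)
    · exact Or.inl (Or.inr ⟨z, hz, rfl⟩)
    · left; left; rw [neg_neg]; exact hw
    · right; right; rfl
    · right; left; rw [neg_neg]
  have h1 : (1:ℂ) ∈ F' := by
    rw [hF', Finset.mem_union]; right; simp
  have hm1 : (-1:ℂ) ∈ F' := hneg 1 h1
  have hFF : ∀ z, z ∈ F → z ∈ F' := by
    intro z hz
    rw [hF', Finset.mem_union, Finset.mem_union]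
    exact Or.inl (Or.inl hz)
  set c : ℕ := (1 + m) * (2 * F'.card + 1) with hc
  obtain ⟨r, hr⟩ := exists_r c
  obtain ⟨E, q, hcard, hZ, hn, hq, hqle, hE⟩ := exists_family m hm F' h1 r
  set B : ℕ := 2 ^ r * (c * (4 ^ r)) ^ r with hB
  have hqB : 2 ^ r * q ≤ B := by
    have h2 : ((1 + m) * (2 * F'.card * 4 ^ r + 1) : ℝ) ≤ ((c * 4 ^ r : ℕ) : ℝ) := by
      have h3 : (1 + m) * (2 * F'.card * 4 ^ r + 1) ≤ c * 4 ^ r := by
        have h3a : 1 ≤ 4 ^ r := Nat.one_le_pow _ _ (by norm_num)
        calc (1 + m) * (2 * F'.card * 4 ^ r + 1) ≤ (1 + m) * ((2 * F'.card + 1) * 4 ^ r) := by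
              apply Nat.mul_le_mul_left
              nlinarith
          _ = c * 4 ^ r := by rw [hc]; ring
      exact_mod_cast h3
    have h4 : q ≤ ((c * 4 ^ r : ℕ) : ℝ) ^ r :=
      hqle.trans (pow_le_pow_left₀ (by positivity) h2 r)
    rw [hB]
    push_cast
    push_cast at h4
    exact mul_le_mul_of_nonneg_left h4 (by positivity)
  -- pigeonhole
  set T : Finset ℂ := ((Finset.Icc (-(B:ℤ)) B) ×ˢ (Finset.Icc (-(B:ℤ)) B)).image
    (fun p => (⟨p.1, p.2 * Real.sqrt m⟩ : ℂ)) with hT
  have hTcard : T.card ≤ (2 * B + 1) ^ 2 := by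
    refine Finset.card_image_le.trans ?_
    rw [Finset.card_product, Int.card_Icc]
    have : ((B:ℤ) + 1 - -(B:ℤ)).toNat = 2 * B + 1 := by omega
    rw [this, sq]
  have hmaps : ∀ S ∈ E.powerset, ∑ x ∈ S, x ∈ T := by
    intro S hS
    rw [Finset.mem_powerset] at hS
    obtain ⟨a, b, hab⟩ := ZZ_sum m S (fun x => x) (fun x hx => hZ x (hS hx))
    have hnorm : ‖∑ x ∈ S, x‖ ≤ B := by
      calc ‖∑ x ∈ S, x‖ ≤ ∑ x ∈ S, ‖x‖ := norm_sum_le _ _
        _ = S.card * q := by
          rw [Finset.sum_congr rfl (fun x hx => hn x (hS hx)), Finset.sum_const, nsmul_eq_mul]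
        _ ≤ 2 ^ r * q := by
          apply mul_le_mul_of_nonneg_right _ hq.le
          have := Finset.card_le_card hS
          rw [hcard] at this
          exact_mod_cast this
        _ ≤ B := hqB
    rw [hT, Finset.mem_image]
    refine ⟨(a, b), ?_, hab.symm⟩
    have hre : |(a:ℝ)| ≤ B := by
      have := (Complex.abs_re_le_norm (∑ x ∈ S, x)).trans hnorm
      rw [hab] at this
      exact this
    have him : |(b:ℝ)| ≤ B := by
      have h5 := (Complex.abs_im_le_norm (∑ x ∈ S, x)).trans hnorm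
      rw [hab] at h5
      have h6 : |(b:ℝ) * Real.sqrt m| ≤ B := h5
      rw [abs_mul] at h6
      have h7 : (1:ℝ) ≤ |Real.sqrt m| := by
        rw [abs_of_nonneg (Real.sqrt_nonneg _)]
        rw [Real.one_le_sqrt]
        exact_mod_cast hm
      nlinarith [abs_nonneg (b:ℝ)]
    rw [Finset.mem_product, Finset.mem_Icc, Finset.mem_Icc]
    rw [abs_le] at hre him
    refine ⟨⟨?_, ?_⟩, ⟨?_, ?_⟩⟩
    · have := hre.1; exact_mod_cast this
    · have := hre.2; exact_mod_cast this
    · have := him.1; exact_mod_cast this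
    · have := him.2; exact_mod_cast this
  obtain ⟨S₁, hS₁, S₂, hS₂, hne, hsum⟩ := Finset.exists_ne_map_eq_of_card_lt_of_maps_to
    (s := E.powerset) (t := T) (by
      rw [Finset.card_powerset, hcard]
      exact lt_of_le_of_lt hTcard hr) hmaps
  rw [Finset.mem_powerset] at hS₁ hS₂
  -- the signed relation
  set A := S₁ \ S₂ with hA
  set B' := S₂ \ S₁ with hB'
  have hAE : A ⊆ E := fun x hx => hS₁ (Finset.mem_sdiff.mp hx).1
  have hBE : B' ⊆ E := fun x hx => hS₂ (Finset.mem_sdiff.mp hx).1
  have hAB : ∀ x ∈ A, ∀ y ∈ B', x ≠ y := by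
    intro x hx y hy hxy
    rw [hA, Finset.mem_sdiff] at hx
    rw [hB', Finset.mem_sdiff, ← hxy] at hy
    exact hx.2 hy.1
  have hE0 : ∀ x ∈ E, x ≠ 0 := by
    intro x hx h0
    have := hn x hx
    rw [h0] at this
    simp at this
    linarith
  have hsumAB : ∑ x ∈ A, x = ∑ x ∈ B', x := by
    have e1 := Finset.sum_inter_add_sum_sdiff S₁ S₂ (fun x : ℂ => x)
    have e2 := Finset.sum_inter_add_sum_sdiff S₂ S₁ (fun x : ℂ => x)
    rw [Finset.inter_comm] at e2
    have e3 : ∑ x ∈ S₁, x = ∑ x ∈ S₂, x := hsum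
    rw [hA, hB']
    linear_combination e1 - e2 + e3
  set R := A ∪ B'.image (fun x => -x) with hR
  have hdisj : Disjoint A (B'.image (fun x => -x)) := by
    rw [Finset.disjoint_left]
    intro x hx hx'
    obtain ⟨y, hy, hyx⟩ := Finset.mem_image.mp hx'
    apply hE x (hAE hx) y (hBE hy) (hAB x hx y hy)
    have : x / y = -1 := by
      rw [← hyx, neg_div, div_self (hE0 y (hBE hy))]
    rw [this]
    exact hm1
  have hRsum : ∑ x ∈ R, x = 0 := by
    rw [hR, Finset.sum_union hdisj, Finset.sum_image (fun x _ y _ h => neg_injective h),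
      Finset.sum_neg_distrib, hsumAB]
    ring
  have hRpm : ∀ x ∈ R, ∃ ε : ℂ, (ε = 1 ∨ ε = -1) ∧ ∃ y ∈ E, x = ε * y := by
    intro x hx
    rcases Finset.mem_union.mp hx with hx | hx
    · exact ⟨1, Or.inl rfl, x, hAE hx, by ring⟩
    · obtain ⟨y, hy, rfl⟩ := Finset.mem_image.mp hx
      exact ⟨-1, Or.inr rfl, y, hBE hy, by ring⟩
  have hRne : R.Nonempty := by
    by_contra hcon
    rw [Finset.not_nonempty_iff_eq_empty, hR, Finset.union_eq_empty, Finset.image_eq_empty] at hcon
    apply hne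
    apply Finset.Subset.antisymm
    · exact Finset.sdiff_eq_empty_iff_subset.mp hcon.1
    · exact Finset.sdiff_eq_empty_iff_subset.mp hcon.2
  have hRZ : ∀ x ∈ R, x ∈ KK m ∧ ‖x‖ = q := by
    intro x hx
    obtain ⟨ε, hε, y, hy, rfl⟩ := hRpm x hx
    rcases hε with rfl | rfl
    · rw [one_mul]; exact ⟨ZZ_sub_KK m (hZ y hy), hn y hy⟩
    · rw [neg_one_mul, norm_neg]; exact ⟨KK_neg m (ZZ_sub_KK m (hZ y hy)), hn y hy⟩
  have hR0 : ∀ x ∈ R, x ≠ 0 := by
    intro x hx h0
    have := (hRZ x hx).2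
    rw [h0] at this
    simp at this
    linarith
  have hRR : ∀ x ∈ R, ∀ y ∈ R, x ≠ y → -(x / y) ∉ F := by
    intro x hx y hy hxy hmem
    have hmem' := hFF _ hmem
    -- both of `x / y` and `-(x / y)` lie in F'
    have hmem'' : x / y ∈ F' := by
      have := hneg _ hmem'
      rwa [neg_neg] at this
    have hall : ∀ u ∈ E, ∀ v ∈ E, (u / v ∈ F' ∨ -(u/v) ∈ F') → u = v := by
      intro u hu v hv huv
      by_contra hne
      rcases huv with h | h
      · exact hE u hu v hv hne h
      · have := hneg _ h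
        rw [neg_neg] at this
        exact hE u hu v hv hne this
    rcases Finset.mem_union.mp hx with hx | hx <;> rcases Finset.mem_union.mp hy with hy | hy
    · exact hxy (hall x (hAE hx) y (hAE hy) (Or.inl hmem''))
    · obtain ⟨v, hv, rfl⟩ := Finset.mem_image.mp hy
      have : x = v := hall x (hAE hx) v (hBE hv) (by
        right; rw [← div_neg]; exact hmem'')
      exact hAB x hx v hv this
    · obtain ⟨u, hu, rfl⟩ := Finset.mem_image.mp hx
      have : u = y := hall u (hBE hu) y (hAE hy) (by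
        right; rw [← neg_div]; exact hmem'')
      exact hAB y hy u hu this.symm
    · obtain ⟨u, hu, rfl⟩ := Finset.mem_image.mp hx
      obtain ⟨v, hv, rfl⟩ := Finset.mem_image.mp hy
      have : u = v := hall u (hBE hu) v (hBE hv) (by
        left; rw [← neg_div_neg_eq]; exact hmem'')
      exact hxy (by rw [this])
  obtain ⟨x0, hx0⟩ := hRne
  have hx00 := hR0 x0 hx0
  have hquot : ∀ x ∈ R, x / x0 ∈ UU m := by
    intro x hx
    refine ⟨?_, ?_⟩
    · rw [div_eq_mul_inv]
      exact KK_mul m (hRZ x hx).1 (KK_inv m (hRZ x0 hx0).1)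
    · rw [norm_div, (hRZ x hx).2, (hRZ x0 hx0).2, div_self hq.ne']
  rcases Nat.even_or_odd R.card with hev | hod
  · right
    refine ⟨(R.erase x0).image (fun x => -(x / x0)), ?_, ?_, ?_, ?_⟩
    · intro z hz
      obtain ⟨x, hx, rfl⟩ := Finset.mem_image.mp hz
      exact UU_neg m (hquot x (Finset.mem_of_mem_erase hx))
    · rw [Finset.sum_image]
      · rw [Finset.sum_neg_distrib, ← Finset.sum_div]
        have := Finset.add_sum_erase R (fun x : ℂ => x) hx0
        rw [hRsum] at this
        have h5 : ∑ x ∈ R.erase x0, x = -x0 := by linear_combination this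
        rw [h5, neg_div, div_self hx00, neg_neg]
      · intro x _ y _ h
        have h6 := neg_injective h
        field_simp at h6
        exact h6
    · rw [Finset.card_image_of_injective, Finset.card_erase_of_mem hx0]
      · have : 1 ≤ R.card := Finset.card_pos.mpr ⟨x0, hx0⟩
        exact Nat.Even.sub_odd this hev odd_one
      · intro x y h
        have h6 := neg_injective h
        field_simp at h6
        exact h6
    · rw [Finset.disjoint_left]
      intro z hz
      obtain ⟨x, hx, rfl⟩ := Finset.mem_image.mp hz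
      exact hRR x (Finset.mem_of_mem_erase hx) x0 hx0 (Finset.ne_of_mem_erase hx)
  · left
    refine ⟨R.image (fun x => x / x0), ?_, ?_, ?_⟩
    · intro z hz
      obtain ⟨x, hx, rfl⟩ := Finset.mem_image.mp hz
      exact hquot x hx
    · rw [Finset.sum_image]
      · rw [← Finset.sum_div, hRsum, zero_div]
      · intro x _ y _ h
        field_simp at h
        exact h
    · rw [Finset.card_image_of_injective]
      · exact hod
      · intro x y h
        field_simp at h
        exact h

/-- If no odd zero-sum set exists, sums of lists can be turned into sums of sets with the same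
parity. -/
lemma listSet (hm : 0 < m)
    (hno : ¬ ∃ S : Finset ℂ, (∀ z ∈ S, z ∈ UU m) ∧ ∑ z ∈ S, z = 0 ∧ Odd S.card)
    (F : Finset ℂ) (l : List ℂ) (hl : ∀ z ∈ l, z ∈ UU m) :
    ∃ S : Finset ℂ, (∀ z ∈ S, z ∈ UU m) ∧ ∑ z ∈ S, z = l.sum ∧ S.card % 2 = l.length % 2 ∧
      Disjoint S F := by
  classical
  induction l with
  | nil => exact ⟨∅, by simp, by simp, by simp, by simp⟩
  | cons z l ih =>
    obtain ⟨S, hSU, hSs, hSc, hSd⟩ := ih (fun w hw => hl w (List.mem_cons_of_mem _ hw))
    have hz : z ∈ UU m := hl z List.mem_cons_self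
    have hz0 := UU_ne_zero m hz
    rcases dichotomy m hm ((F ∪ S).image (fun w => z⁻¹ * w)) with h | ⟨H, hHU, hHs, hHc, hHd⟩
    · exact absurd h hno
    have hdis : Disjoint (H.image (fun w => z * w)) (F ∪ S) := by
      rw [Finset.disjoint_left] at hHd ⊢
      intro w hw hw'
      obtain ⟨h, hh, rfl⟩ := Finset.mem_image.mp hw
      apply hHd hh
      rw [Finset.mem_image]
      exact ⟨z * h, hw', by field_simp⟩
    rw [Finset.disjoint_union_right] at hdis
    refine ⟨(H.image (fun w => z * w)) ∪ S, ?_, ?_, ?_, ?_⟩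
    · intro w hw
      rcases Finset.mem_union.mp hw with hw | hw
      · obtain ⟨h, hh, rfl⟩ := Finset.mem_image.mp hw
        exact UU_mul m hz (hHU h hh)
      · exact hSU w hw
    · rw [Finset.sum_union hdis.2, Finset.sum_image (fun x _ y _ h => mul_left_cancel₀ hz0 h),
        ← Finset.mul_sum, hHs, hSs, List.sum_cons, mul_one]
    · rw [Finset.card_union_of_disjoint hdis.2,
        Finset.card_image_of_injective _ (mul_right_injective₀ hz0), List.length_cons]
      rw [Nat.odd_iff] at hHc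
      omega
    · rw [Finset.disjoint_union_left]
      exact ⟨hdis.1, hSd⟩

/-- The conjugate of `gam`. -/
lemma conj_gam_mem (t : ℕ) : (starRingEnd ℂ) (gam m t) ∈ UU m := by
  obtain ⟨⟨a, b, hab⟩, hn⟩ := gam_mem m t
  refine ⟨⟨a, -b, ?_⟩, by rw [Complex.norm_conj, hn]⟩
  rw [hab]
  apply Complex.ext <;> simp

lemma gam_add_conj : gam m 1 + (starRingEnd ℂ) (gam m 1) = ((2 * (1 - m) / (1 + m) : ℝ) : ℂ) := by
  have hs := sqrt_sq' m
  have h1 : gam m 1 = ⟨(1 - m) / (1 + m), 2 * Real.sqrt m / (1 + m)⟩ := by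
    unfold gam
    have h2 : (starRingEnd ℂ) (al m 1) ≠ 0 := by
      intro h0
      exact al_ne_zero m 1 ((map_eq_zero _).mp h0)
    rw [div_eq_iff h2]
    have h3 : (1 + (m:ℝ)) ≠ 0 := by positivity
    apply Complex.ext
    · simp only [al, Complex.mul_re, Complex.conj_re, Complex.conj_im]
      field_simp
      push_cast
      linear_combination (-2 : ℝ) * hs
    · simp only [al, Complex.mul_im, Complex.conj_re, Complex.conj_im]
      field_simp
      push_cast
      ring
  rw [h1]
  apply Complex.ext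
  · rw [Complex.ofReal_re]
    simp
    ring
  · rw [Complex.ofReal_im]
    simp

/-- For `m ≡ 3 (mod 4)` there is an odd zero-sum set of elements of norm one. -/
lemma exists_odd (hm : m % 4 = 3) :
    ∃ S : Finset ℂ, (∀ z ∈ S, z ∈ UU m) ∧ ∑ z ∈ S, z = 0 ∧ Odd S.card := by
  by_contra hno
  have hm0 : 0 < m := by omega
  set k := (m + 1) / 4 with hk
  have hmk : m = 4 * k - 1 := by omega
  have hk1 : 1 ≤ k := by omega
  set l : List ℂ := List.replicate k (gam m 1) ++ (List.replicate k ((starRingEnd ℂ) (gam m 1)) ++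
    List.replicate (2 * k - 1) 1) with hl
  have hlU : ∀ z ∈ l, z ∈ UU m := by
    intro z hz
    rw [hl, List.mem_append, List.mem_append] at hz
    rcases hz with hz | hz | hz
    · rw [List.eq_of_mem_replicate hz]; exact gam_mem m 1
    · rw [List.eq_of_mem_replicate hz]; exact conj_gam_mem m 1
    · rw [List.eq_of_mem_replicate hz]; exact UU_one m
  obtain ⟨S, hSU, hSs, hSc, -⟩ := listSet m hm0 hno ∅ l hlU
  apply hno
  refine ⟨S, hSU, ?_, ?_⟩
  · rw [hSs, hl, List.sum_append, List.sum_append, List.sum_replicate, List.sum_replicate,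
      List.sum_replicate, nsmul_eq_mul, nsmul_eq_mul, nsmul_eq_mul]
    have h1 := gam_add_conj m
    have h2 : (m : ℝ) = 4 * k - 1 := by
      have : m + 1 = 4 * k := by omega
      have h3 : (m:ℝ) + 1 = 4 * k := by exact_mod_cast this
      linarith
    have h4 : ((2 * k - 1 : ℕ) : ℂ) = 2 * k - 1 := by
      rw [Nat.cast_sub (by omega)]
      push_cast
      ring
    rw [h4]
    have hk0 : (k:ℝ) ≠ 0 := by positivity
    have h5 : (2 * (1 - (m:ℝ)) / (1 + m) : ℝ) = (1 - 2 * k) / k := by
      rw [h2]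
      have : (1 + (4 * (k:ℝ) - 1)) ≠ 0 := by
        have : 0 < (k:ℝ) := by positivity
        linarith
      rw [div_eq_div_iff this hk0]
      ring
    rw [h5] at h1
    have hkC : (k:ℂ) ≠ 0 := by exact_mod_cast hk0
    have h6 : (k:ℂ) * (gam m 1 + (starRingEnd ℂ) (gam m 1)) = 1 - 2 * k := by
      rw [h1]
      push_cast
      field_simp
    linear_combination h6
  · rw [Nat.odd_iff, hSc, hl, List.length_append, List.length_append, List.length_replicate,
      List.length_replicate, List.length_replicate]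
    omega

/-- Zero-sum sets of every large size. -/
lemma exists_size (hm : m % 4 = 3) : ∃ N, ∀ n, N ≤ n →
    ∃ T : Finset ℂ, (∀ z ∈ T, z ∈ UU m) ∧ ∑ z ∈ T, z = 0 ∧ T.card = n := by
  classical
  have hm0 : 0 < m := by omega
  have step : ∀ T : Finset ℂ, (∀ z ∈ T, z ∈ UU m) → ∑ z ∈ T, z = 0 → ∀ j : ℕ,
      ∃ T' : Finset ℂ, (∀ z ∈ T', z ∈ UU m) ∧ ∑ z ∈ T', z = 0 ∧ T'.card = T.card + 2 * j := by
    intro T hT hT0 j
    induction j with
    | zero => exact ⟨T, hT, hT0, by simp⟩
    | succ j ih =>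
      obtain ⟨T', h1, h2, h3⟩ := ih
      obtain ⟨t, _, _, ht⟩ := exists_fresh m hm0 (T' ∪ T'.image (fun z => -z))
      rw [Finset.mem_union, not_or] at ht
      have hg := gam_mem m t
      have hg0 := UU_ne_zero m hg
      have hn2 : -gam m t ∉ T' := by
        intro h
        apply ht.2
        rw [Finset.mem_image]
        exact ⟨_, h, by ring⟩
      have hn3 : gam m t ∉ insert (-gam m t) T' := by
        rw [Finset.mem_insert, not_or]
        refine ⟨?_, ht.1⟩
        intro h
        apply hg0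
        have : 2 * gam m t = 0 := by linear_combination h
        simpa using this
      refine ⟨insert (gam m t) (insert (-gam m t) T'), ?_, ?_, ?_⟩
      · intro z hz
        rw [Finset.mem_insert, Finset.mem_insert] at hz
        rcases hz with rfl | rfl | hz
        · exact hg
        · exact UU_neg m hg
        · exact h1 z hz
      · rw [Finset.sum_insert hn3, Finset.sum_insert hn2, h2]
        ring
      · rw [Finset.card_insert_of_notMem hn3, Finset.card_insert_of_notMem hn2, h3]
        ring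
  obtain ⟨S, hSU, hSs, hSo⟩ := exists_odd m hm
  refine ⟨S.card, fun n hn => ?_⟩
  rcases Nat.even_or_odd n with he | ho
  · obtain ⟨k, hk⟩ := he
    obtain ⟨T', h1, h2, h3⟩ := step ∅ (by simp) (by simp) k
    exact ⟨T', h1, h2, by rw [h3, Finset.card_empty]; omega⟩
  · rw [Nat.odd_iff] at hSo ho
    obtain ⟨T', h1, h2, h3⟩ := step S hSU hSs ((n - S.card) / 2)
    exact ⟨T', h1, h2, by rw [h3]; omega⟩

/-- Clearing denominators. -/
lemma exists_denom (T : Finset ℂ) (hT : ∀ z ∈ T, z ∈ KK m) :
    ∃ D : ℕ, 0 < D ∧ ∀ z ∈ T, (D : ℂ) * z ∈ ZZ m := by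
  classical
  induction T using Finset.induction_on with
  | empty => exact ⟨1, one_pos, by simp⟩
  | insert z T hz ih =>
    obtain ⟨D, hD, hDT⟩ := ih (fun w hw => hT w (mem_insert_of_mem hw))
    obtain ⟨x, y, hxy⟩ := hT z (mem_insert_self z T)
    have hnat : ∀ (k : ℕ) (w : ℂ), w ∈ ZZ m → (k : ℂ) * w ∈ ZZ m := by
      intro k w hw
      refine ZZ_mul m ⟨k, 0, ?_⟩ hw
      apply Complex.ext <;> simp
    refine ⟨x.den * y.den * D, by positivity, ?_⟩
    intro w hw
    rw [Finset.mem_insert] at hw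
    rcases hw with rfl | hw
    · have hbase : ((x.den * y.den : ℕ) : ℂ) * w ∈ ZZ m := by
        refine ⟨x.num * y.den, x.den * y.num, ?_⟩
        have e1 : (x : ℝ) * x.den = x.num := by exact_mod_cast Rat.mul_den_eq_num x
        have e2 : (y : ℝ) * y.den = y.num := by exact_mod_cast Rat.mul_den_eq_num y
        rw [hxy]
        apply Complex.ext
        · rw [Complex.mul_re, Complex.natCast_re, Complex.natCast_im]
          push_cast
          linear_combination (y.den : ℝ) * e1
        · rw [Complex.mul_im, Complex.natCast_re, Complex.natCast_im]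
          push_cast
          linear_combination (x.den : ℝ) * Real.sqrt m * e2
      have := hnat D _ hbase
      have e3 : ((x.den * y.den * D : ℕ) : ℂ) * w = (D : ℂ) * (((x.den * y.den : ℕ) : ℂ) * w) := by
        push_cast
        ring
      rw [e3]
      exact this
    · have := hnat (x.den * y.den) _ (hDT w hw)
      have e3 : ((x.den * y.den * D : ℕ) : ℂ) * w = ((x.den * y.den : ℕ) : ℂ) * ((D:ℂ) * w) := by
        push_cast
        ring
      rw [e3]
      exact this

end field

/-! ### Sorting the vectors by angle -/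

/-- A zero-sum set of `n ≥ 3` vectors of equal positive length sorted by angle. -/
lemma exists_sorted (T : Finset ℂ) (ℓ : ℝ) (hT : ∀ z ∈ T, ‖z‖ = ℓ) :
    ∃ e : Fin T.card → ℂ, (∀ i, e i ∈ T) ∧ StrictMono (fun i => (e i).arg) ∧
      ∑ i, e i = ∑ z ∈ T, z := by
  classical
  have hinj : Set.InjOn Complex.arg (T : Set ℂ) := by
    intro z hz w hw h
    rw [← Complex.norm_mul_exp_arg_mul_I z, ← Complex.norm_mul_exp_arg_mul_I w, h,
      hT z hz, hT w hw]
  set A := T.image Complex.arg with hA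
  have hAc : A.card = T.card := Finset.card_image_of_injOn hinj
  set σ := A.orderEmbOfFin hAc with hσ
  have hσA : ∀ i, σ i ∈ A := fun i => Finset.orderEmbOfFin_mem A hAc i
  have hex : ∀ i, ∃ z ∈ T, z.arg = σ i := by
    intro i
    have := hσA i
    rw [hA, Finset.mem_image] at this
    exact this
  choose e he1 he2 using hex
  have hmono : StrictMono (fun i => (e i).arg) := by
    intro i j hij
    simp only [he2]
    exact σ.strictMono hij
  refine ⟨e, he1, hmono, ?_⟩
  have hei : Function.Injective e := by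
    intro i j hij
    apply hmono.injective
    simp only [hij]
  have hset : (Finset.univ.image e) = T := by
    apply Finset.eq_of_subset_of_card_le
    · intro z hz
      obtain ⟨i, _, rfl⟩ := Finset.mem_image.mp hz
      exact he1 i
    · rw [Finset.card_image_of_injective _ hei, Finset.card_univ, Fintype.card_fin]
  calc ∑ i, e i = ∑ z ∈ Finset.univ.image e, z := by
        rw [Finset.sum_image (fun i _ j _ h => hei h)]
    _ = _ := by rw [hset]

/-- Real cross product of complex numbers. -/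
def cr (u v : ℂ) : ℝ := u.re * v.im - u.im * v.re

lemma cr_eq (ℓ : ℝ) (u v : ℂ) (hu : ‖u‖ = ℓ) (hv : ‖v‖ = ℓ) :
    cr u v = ℓ ^ 2 * Real.sin (v.arg - u.arg) := by
  unfold cr
  rw [← Complex.norm_mul_cos_arg u, ← Complex.norm_mul_sin_arg u, ← Complex.norm_mul_cos_arg v,
    ← Complex.norm_mul_sin_arg v, hu, hv, Real.sin_sub]
  ring

lemma cr_sum (u : ℂ) (s : Finset ℕ) (E : ℕ → ℂ) : cr u (∑ l ∈ s, E l) = ∑ l ∈ s, cr u (E l) := by
  classical
  induction s using Finset.induction_on with
  | empty => simp [cr]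
  | insert a s ha ih =>
    rw [Finset.sum_insert ha, Finset.sum_insert ha, ← ih]
    unfold cr
    rw [Complex.add_re, Complex.add_im]
    ring

/-- The key convexity estimate: partial sums of vectors sorted by angle with total sum zero. -/
lemma key (n : ℕ) (E : ℕ → ℂ) (ℓ : ℝ) (hℓ : 0 < ℓ) (hE : ∀ l < n, ‖E l‖ = ℓ)
    (hmono : ∀ a b, a < b → b < n → (E a).arg < (E b).arg) (hsum : ∑ l ∈ range n, E l = 0)
    (i j : ℕ) (hi : i < n) (hj : j < n) (hij : j ≠ i) (hij' : j ≠ i + 1)
    (hij'' : ¬ (i = n - 1 ∧ j = 0)) :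
    0 < cr (E i) (∑ l ∈ range j, E l - ∑ l ∈ range i, E l) := by
  have hℓ2 : 0 < ℓ ^ 2 := by positivity
  -- signs of single terms
  have hs : ∀ l < n, cr (E i) (E l) = ℓ ^ 2 * Real.sin ((E l).arg - (E i).arg) :=
    fun l hl => cr_eq ℓ _ _ (hE i hi) (hE l hl)
  have hpos : ∀ l < n, 0 < (E l).arg - (E i).arg → (E l).arg - (E i).arg < Real.pi →
      0 < cr (E i) (E l) := by
    intro l hl h1 h2
    rw [hs l hl]
    exact mul_pos hℓ2 (Real.sin_pos_of_pos_of_lt_pi h1 h2)
  have hneg : ∀ l < n, (E l).arg - (E i).arg < 0 → -Real.pi < (E l).arg - (E i).arg →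
      cr (E i) (E l) < 0 := by
    intro l hl h1 h2
    rw [hs l hl]
    exact mul_neg_of_pos_of_neg hℓ2 (Real.sin_neg_of_neg_of_neg_pi_lt h1 h2)
  have hneg' : ∀ l < n, Real.pi < (E l).arg - (E i).arg → (E l).arg - (E i).arg < 2 * Real.pi →
      cr (E i) (E l) < 0 := by
    intro l hl h1 h2
    rw [hs l hl, ← Real.sin_sub_two_pi]
    exact mul_neg_of_pos_of_neg hℓ2
      (Real.sin_neg_of_neg_of_neg_pi_lt (by linarith) (by linarith))
  have hpos' : ∀ l < n, (E l).arg - (E i).arg < -Real.pi → -(2 * Real.pi) < (E l).arg - (E i).arg →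
      0 < cr (E i) (E l) := by
    intro l hl h1 h2
    rw [hs l hl, ← Real.sin_add_two_pi]
    exact mul_pos hℓ2 (Real.sin_pos_of_pos_of_lt_pi (by linarith) (by linarith))
  have hbd : ∀ a b, (E a).arg - (E b).arg < 2 * Real.pi := by
    intro a b
    have h1 := Complex.arg_le_pi (E a)
    have h2 := Complex.neg_pi_lt_arg (E b)
    linarith
  have hself : cr (E i) (E i) = 0 := by unfold cr; ring
  set c : ℕ → ℝ := fun l => cr (E i) (E l) with hc
  have htot : ∑ l ∈ range n, c l = 0 := by
    rw [hc, ← cr_sum, hsum]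
    simp [cr]
  have hval : cr (E i) (∑ l ∈ range j, E l - ∑ l ∈ range i, E l)
      = ∑ l ∈ range j, c l - ∑ l ∈ range i, c l := by
    rw [hc, ← cr_sum, ← cr_sum]
    unfold cr
    rw [Complex.sub_re, Complex.sub_im]
    ring
  rw [hval]
  rcases lt_or_gt_of_ne hij with hlt | hgt
  · -- j < i
    have h1 : ∑ l ∈ range i, c l = ∑ l ∈ range j, c l + ∑ l ∈ Ico j i, c l :=
      (Finset.sum_range_add_sum_Ico c hlt.le).symm
    have h2 : ∑ l ∈ range n, c l = ∑ l ∈ range i, c l + ∑ l ∈ Ico i n, c l :=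
      (Finset.sum_range_add_sum_Ico c hi.le).symm
    rcases lt_or_ge ((E i).arg - (E j).arg) Real.pi with hlt' | hge
    · have h3 : ∑ l ∈ Ico j i, c l < 0 := by
        apply Finset.sum_neg
        · intro l hl
          rw [Finset.mem_Ico] at hl
          apply hneg l (by omega)
          · have := hmono l i hl.2 hi
            linarith
          · have : (E j).arg ≤ (E l).arg := by
              rcases hl.1.eq_or_lt with h | h
              · rw [h]
              · exact (hmono j l h (by omega)).le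
            linarith
        · exact ⟨j, Finset.mem_Ico.mpr ⟨le_refl _, hlt⟩⟩
      linarith
    · have hA : ∀ l ∈ range j, 0 < c l := by
        intro l hl
        rw [Finset.mem_range] at hl
        apply hpos' l (by omega)
        · have := hmono l j hl hj
          linarith
        · have := hbd i l
          linarith
      have hB : ∀ l ∈ Ico i n, 0 ≤ c l := by
        intro l hl
        rw [Finset.mem_Ico] at hl
        rcases hl.1.eq_or_lt with h | h
        · rw [← h]; exact hself.ge
        · apply (hpos l hl.2 _ _).le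
          · have := hmono i l h hl.2
            linarith
          · have := hbd l j
            linarith
      have h4 : 0 ≤ ∑ l ∈ range j, c l := Finset.sum_nonneg (fun l hl => (hA l hl).le)
      have h5 : 0 ≤ ∑ l ∈ Ico i n, c l := Finset.sum_nonneg hB
      have h6 : 0 < ∑ l ∈ range j, c l + ∑ l ∈ Ico i n, c l := by
        rcases Nat.eq_zero_or_pos j with hj0 | hj0
        · have hin : i + 1 < n := by
            by_contra hcon
            exact hij'' ⟨by omega, hj0⟩
          have : 0 < ∑ l ∈ Ico i n, c l := by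
            apply Finset.sum_pos' hB
            refine ⟨i + 1, Finset.mem_Ico.mpr ⟨by omega, hin⟩, ?_⟩
            apply hpos (i + 1) hin
            · have := hmono i (i + 1) (by omega) hin
              linarith
            · have := hbd (i + 1) j
              linarith
          linarith
        · have : 0 < ∑ l ∈ range j, c l :=
            Finset.sum_pos hA ⟨0, Finset.mem_range.mpr hj0⟩
          linarith
      linarith
  · -- i < j
    have h1 : ∑ l ∈ range j, c l = ∑ l ∈ range i, c l + ∑ l ∈ Ico i j, c l :=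
      (Finset.sum_range_add_sum_Ico c hgt.le).symm
    have h2 : ∑ l ∈ range n, c l = ∑ l ∈ range j, c l + ∑ l ∈ Ico j n, c l :=
      (Finset.sum_range_add_sum_Ico c hj.le).symm
    have hij2 : i + 1 < j := by omega
    rcases lt_or_ge ((E (j - 1)).arg - (E i).arg) Real.pi with hlt' | hge
    · have h3 : 0 < ∑ l ∈ Ico i j, c l := by
        have hall : ∀ l ∈ Ico i j, i < l → 0 < c l := by
          intro l hl hil
          rw [Finset.mem_Ico] at hl
          apply hpos l (by omega)
          · have := hmono i l hil (by omega)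
            linarith
          · have : (E l).arg ≤ (E (j - 1)).arg := by
              rcases (Nat.le_sub_one_of_lt hl.2).eq_or_lt with h | h
              · rw [h]
              · exact (hmono l (j - 1) h (by omega)).le
            linarith
        apply Finset.sum_pos'
        · intro l hl
          rcases (Finset.mem_Ico.mp hl).1.eq_or_lt with h | h
          · rw [← h]; exact hself.ge
          · exact (hall l hl h).le
        · refine ⟨i + 1, Finset.mem_Ico.mpr ⟨by omega, hij2⟩, ?_⟩
          exact hall (i + 1) (Finset.mem_Ico.mpr ⟨by omega, hij2⟩) (by omega)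
      linarith
    · have hA : ∀ l ∈ Ico j n, c l < 0 := by
        intro l hl
        rw [Finset.mem_Ico] at hl
        apply hneg' l hl.2
        · have := hmono (j - 1) l (by omega) hl.2
          linarith
        · exact hbd l i
      have hB : ∀ l ∈ range i, c l ≤ 0 := by
        intro l hl
        rw [Finset.mem_range] at hl
        apply (hneg l (by omega) _ _).le
        · have := hmono l i hl hi
          linarith
        · have := hbd (j - 1) l
          linarith
      have h4 : ∑ l ∈ range i, c l ≤ 0 := Finset.sum_nonpos hB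
      have h5 : ∑ l ∈ Ico j n, c l < 0 :=
        Finset.sum_neg hA ⟨j, Finset.mem_Ico.mpr ⟨le_refl _, hj⟩⟩
      linarith

/-- The plane vector of a complex number. -/
noncomputable def toP (z : ℂ) : Plane := !₂[z.re, z.im]

lemma toP_0 (z : ℂ) : toP z 0 = z.re := rfl

lemma toP_1 (z : ℂ) : toP z 1 = z.im := rfl

lemma dist_toP (z w : ℂ) : dist (toP z) (toP w) = ‖w - z‖ := by
  rw [EuclideanSpace.dist_eq, Fin.sum_univ_two, toP_0, toP_0, toP_1, toP_1, Real.dist_eq,
    Real.dist_eq, sq_abs, sq_abs, Complex.norm_def, Complex.normSq_apply, Complex.sub_re,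
    Complex.sub_im]
  congr 1
  ring

/-- **Main theorem.** For every `m ≡ 3 (mod 4)` the lattice `Λ(m)` contains a convex equilateral
`n`-gon for all large `n`. -/
theorem result (m : ℕ) (hm : m % 4 = 3) :
    ∃ N : ℕ, ∀ n, N ≤ n → ∃ p : Fin n → Plane, IsConvexEquilateral n p ∧ ∀ i, p i ∈ Lam m := by
  classical
  obtain ⟨N, hN⟩ := exists_size m hm
  refine ⟨max N 3, fun n hn => ?_⟩
  have hn3 : 3 ≤ n := le_trans (le_max_right _ _) hn
  obtain ⟨T, hTU, hTs, hTc⟩ := hN n (le_trans (le_max_left _ _) hn)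
  obtain ⟨D, hD, hDT⟩ := exists_denom m T (fun z hz => (hTU z hz).1)
  have hDC : (D:ℂ) ≠ 0 := by exact_mod_cast hD.ne'
  set T' := T.image (fun z => (D:ℂ) * z) with hT'
  have hT'c : T'.card = n := by
    rw [hT', Finset.card_image_of_injective _ (mul_right_injective₀ hDC), hTc]
  have hT's : ∑ z ∈ T', z = 0 := by
    rw [hT', Finset.sum_image (fun x _ y _ h => mul_left_cancel₀ hDC h), ← Finset.mul_sum, hTs,
      mul_zero]
  have hDpos : (0:ℝ) < D := by exact_mod_cast hD
  have hT'n : ∀ z ∈ T', ‖z‖ = (D:ℝ) := by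
    intro z hz
    obtain ⟨w, hw, rfl⟩ := Finset.mem_image.mp hz
    rw [norm_mul, (hTU w hw).2, Complex.norm_natCast, mul_one]
  have hT'Z : ∀ z ∈ T', z ∈ ZZ m := by
    intro z hz
    obtain ⟨w, hw, rfl⟩ := Finset.mem_image.mp hz
    exact hDT w hw
  obtain ⟨e, he1, he2, he3⟩ := exists_sorted T' D hT'n
  rw [hT's] at he3
  -- extend to the naturals
  set E : ℕ → ℂ := fun l => if h : l < T'.card then e ⟨l, h⟩ else 0 with hE
  have hEn : ∀ l < n, E l ∈ T' := by
    intro l hl
    rw [← hT'c] at hl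
    simp only [hE, dif_pos hl]
    exact he1 _
  have hEsum : ∑ l ∈ range n, E l = 0 := by
    rw [← hT'c, ← Fin.sum_univ_eq_sum_range, ← he3]
    apply Finset.sum_congr rfl
    intro i _
    simp only [hE, dif_pos i.2]
  have hEmono : ∀ a b, a < b → b < n → (E a).arg < (E b).arg := by
    intro a b hab hb
    rw [← hT'c] at hb
    have ha : a < T'.card := hab.trans hb
    simp only [hE, dif_pos ha, dif_pos hb]
    exact he2 (show (⟨a, ha⟩ : Fin T'.card) < ⟨b, hb⟩ from hab)
  set P : ℕ → ℂ := fun k => ∑ l ∈ range k, E l with hP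
  have hPn : P n = 0 := hEsum
  have hP0 : P 0 = 0 := by simp [hP]
  have hPsucc : ∀ k, P (k + 1) = P k + E k := by
    intro k
    simp only [hP]
    rw [Finset.sum_range_succ]
  -- the next vertex
  obtain ⟨n', rfl⟩ : ∃ n', n = n' + 1 := ⟨n - 1, by omega⟩
  have hrot : ∀ i : Fin (n' + 1), P (finRotate (n' + 1) i : ℕ) = P i + E i := by
    intro i
    rw [← hPsucc]
    rw [finRotate_apply]
    rcases Nat.lt_or_ge i.val n' with h | h
    · have : ((i + 1 : Fin (n' + 1)) : ℕ) = i.val + 1 := by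
        rw [Fin.val_add_one]
        rw [if_neg]
        intro h'
        rw [h'] at h
        simp at h
      rw [this]
    · have hi : i = Fin.last n' := by
        apply Fin.ext
        rw [Fin.val_last]
        omega
      rw [hi, Fin.last_add_one, Fin.val_zero, Fin.val_last, hP0, hPn]
  refine ⟨fun i => toP (P i), ⟨hn3, ⟨D, hDpos, ?_⟩, ?_⟩, ?_⟩
  · intro i
    rw [dist_toP, hrot i, add_sub_cancel_left]
    exact hT'n _ (hEn i i.2)
  · intro i j hji hji'
    have hcr : cross (toP (P (finRotate (n' + 1) i : ℕ)) - toP (P i)) (toP (P j) - toP (P i))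
        = cr (E i) (∑ l ∈ range j, E l - ∑ l ∈ range i, E l) := by
      unfold cross cr
      simp only [PiLp.sub_apply, toP_0, toP_1]
      rw [hrot i, Complex.add_re, Complex.add_im, Complex.sub_re, Complex.sub_im]
      simp only [hP]
      ring
    rw [hcr]
    apply key (n' + 1) E D hDpos (fun l hl => hT'n _ (hEn l hl)) hEmono hEsum i j i.2 j.2
    · exact fun h => hji (Fin.ext h)
    · intro h
      apply hji'
      apply Fin.ext
      rw [finRotate_apply, Fin.val_add_one, if_neg, h]
      intro h'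
      rw [h', Fin.val_last] at h
      have := j.2
      omega
    · rintro ⟨h1, h2⟩
      apply hji'
      apply Fin.ext
      have hi : i = Fin.last n' := by
        apply Fin.ext
        rw [Fin.val_last]
        omega
      rw [hi, finRotate_apply, Fin.last_add_one, Fin.val_zero, h2]
  · intro i
    have hPZ : P i ∈ ZZ m := by
      apply ZZ_sum
      intro l hl
      apply hT'Z
      apply hEn
      rw [Finset.mem_range] at hl
      exact hl.trans i.2
    obtain ⟨a, b, hab⟩ := hPZ
    refine ⟨a, b, ?_, ?_⟩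
    · simp only [toP_0]
      rw [hab]
    · simp only [toP_1]
      rw [hab]

end Pool.Agent.Results.MP_349919_co.AllLargeN
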